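import Pool.Agent.Y759.DS.Ballot
import Pool.Agent.Y759.DS.Quot

/-! MP_ec2393_nt: the filtration of the weight `N` part of the double shuffle Lie algebra `dm` by
the number of letters `x₀` ends before `N / 2`, and its layers are determined by the coefficients
at the ballot words. -/

set_option autoImplicit false

namespace Pool.Agent.Results.MP_ec2393_nt.BallotWords

open Pool.Agent.H777R4.DM Pool.Agent.Y759.QS

/-- The elements of `dm`, homogeneous of weight `N`, all of whose words contain at least `k`
letters `x₀`. -/
def Fil (N k : ℕ) : Submodule ℚ A where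
  carrier := {ψ | IsDM ψ ∧ ∀ u, co ψ u ≠ 0 → u.length = N ∧ k ≤ u.count 0}
  add_mem' := by
    rintro ψ φ ⟨h1, h2⟩ ⟨h3, h4⟩
    refine ⟨isDM_add h1 h3, fun u hu => ?_⟩
    rw [co_add] at hu
    by_cases h : co ψ u = 0
    · refine h4 u fun h' => hu ?_
      rw [h, h', add_zero]
    · exact h2 u h
  zero_mem' := ⟨isDM_zero, fun u hu => absurd (co_zero u) hu⟩
  smul_mem' := by
    rintro c ψ ⟨h1, h2⟩
    refine ⟨isDM_smul h1 c, fun u hu => h2 u fun h' => hu ?_⟩
    rw [co_smul, h', mul_zero]

/-- The ballot words: the words which end in `x₁` and each initial segment of which contains at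
least as many letters `x₁` as letters `x₀`. -/
def IsBallot (u : List (Fin 2)) : Prop :=
  (∃ v, u = v ++ [1]) ∧ ∀ v, v <+: u → v.count 0 ≤ v.count 1

/-- the exponents of a ballot word -/
theorem prefix_lt (a : List ℕ) : ∀ k : ℕ, 0 < k → Bal k a → ∀ v, v <+: wordX a →
    v.count 0 < v.count 1 + k := by
  induction a with
  | nil =>
    intro k hk _ v hv
    rw [wordX, List.prefix_nil] at hv
    subst hv
    simpa using hk
  | cons x a ih =>
    intro k hk hB v hv
    have hx : x < k := by simpa using hB 0 (by simp)
    rw [wordX] at hv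
    rcases List.prefix_or_prefix_of_prefix hv
      (List.prefix_append (List.replicate x (0 : Fin 2)) (1 :: wordX a)) with h | ⟨w, rfl⟩
    · have h0 : v.count 0 ≤ x := by
        have := h.sublist.count_le (0 : Fin 2)
        rwa [List.count_replicate_self] at this
      omega
    · have hw := (List.prefix_append_right_inj _).1 hv
      cases w with
      | nil =>
        rw [List.append_nil, List.count_replicate_self]
        omega
      | cons y w =>
        rw [List.cons_prefix_cons] at hw
        obtain ⟨rfl, hw⟩ := hw
        have h1 := ih (k + 1 - x) (by omega) (fun i hi => by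
          have := hB (i + 1) (by simpa using hi)
          simp only [List.take_succ_cons, List.sum_cons] at this
          omega) w hw
        have h2 : (List.replicate x (0 : Fin 2)).count 1 = 0 := by
          rw [List.count_replicate]; simp
        rw [List.count_append, List.count_append, List.count_replicate_self, h2,
          List.count_cons_of_ne (by decide), List.count_cons_self]
        omega

theorem wordX_end (a : List ℕ) : a ≠ [] → ∃ v, wordX a = v ++ [1] := by
  induction a with
  | nil => intro h; exact absurd rfl h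
  | cons x a ih =>
    intro _
    rcases eq_or_ne a [] with rfl | ha
    · exact ⟨List.replicate x 0, rfl⟩
    · obtain ⟨v, hv⟩ := ih ha
      refine ⟨List.replicate x 0 ++ 1 :: v, ?_⟩
      rw [wordX, hv]
      simp

theorem isBallot_wordX {a : List ℕ} (ha : a ≠ []) (h : Bal 1 a) : IsBallot (wordX a) :=
  ⟨wordX_end a ha, fun v hv => by have := prefix_lt a 1 one_pos h v hv; omega⟩

/-- the words with `n` letters, `k` of them `x₀`, whose initial segments contain at least as many
letters `x₁` as letters `x₀` -/
def dyck : ℕ → ℕ → Finset (List (Fin 2))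
  | 0, 0 => {[]}
  | 0, _ + 1 => ∅
  | n + 1, 0 => (dyck n 0).image (· ++ [1])
  | n + 1, k + 1 => if 2 * (k + 1) ≤ n + 1 then
      (dyck n (k + 1)).image (· ++ [1]) ∪ (dyck n k).image (· ++ [0]) else ∅

theorem mem_dyck (v : List (Fin 2)) : (∀ p, p <+: v → p.count 0 ≤ p.count 1) →
    v ∈ dyck v.length (v.count 0) := by
  induction v using List.reverseRecOn with
  | nil => intro _; simp [dyck]
  | append_singleton v x ih =>
    intro h
    have h1 := ih fun p hp => h p (hp.trans (List.prefix_append v [x]))
    have h2 := h (v ++ [x]) List.prefix_rfl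
    have h3 := Pool.Agent.TH19.DS.count_len (v ++ [x])
    rw [List.length_append, List.length_singleton] at h3 ⊢
    have hx : x = 0 ∨ x = 1 := by omega
    rcases hx with rfl | rfl
    · have e : (v ++ [(0 : Fin 2)]).count 0 = v.count 0 + 1 := by simp
      rw [e] at h2 h3 ⊢
      rw [dyck, if_pos (by omega)]
      exact Finset.mem_union_right _ (Finset.mem_image_of_mem _ h1)
    · have e : (v ++ [(1 : Fin 2)]).count 0 = v.count 0 := by simp
      rw [e] at h2 h3 ⊢
      rcases hk : v.count 0 with _ | k
      · rw [dyck]
        rw [hk] at h1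
        exact Finset.mem_image_of_mem _ h1
      · rw [hk] at h1 h2 h3
        rw [dyck, if_pos (by omega)]
        exact Finset.mem_union_left _ (Finset.mem_image_of_mem _ h1)

theorem dyck_empty (n k : ℕ) (h : n < 2 * k) : dyck n k = ∅ := by
  cases k with
  | zero => omega
  | succ k =>
    cases n with
    | zero => rfl
    | succ n => rw [dyck, if_neg (by omega)]

theorem card_dyck (n : ℕ) : (dyck n 0).card ≤ 1 ∧
    ∀ k, 2 * (k + 1) ≤ n + 1 → (dyck n (k + 1)).card + n.choose k ≤ n.choose (k + 1) := by
  induction n with
  | zero =>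
    refine ⟨by simp [dyck], fun k hk => ?_⟩
    omega
  | succ n ih =>
    refine ⟨?_, fun k hk => ?_⟩
    · rw [dyck]
      exact Finset.card_image_le.trans ih.1
    · rcases Nat.lt_or_ge (n + 1) (2 * (k + 1)) with h | h
      · rw [dyck_empty _ _ h, Finset.card_empty, zero_add]
        have : n + 1 = 2 * k + 1 := by omega
        rw [this, Nat.choose_symm_half]
      · have h1 := ih.2 k h
        have h2 : (dyck (n + 1) (k + 1)).card ≤ (dyck n (k + 1)).card + (dyck n k).card := by
          rw [dyck, if_pos h]
          exact (Finset.card_union_le _ _).trans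
            (Nat.add_le_add Finset.card_image_le Finset.card_image_le)
        have h3 : (n + 1).choose (k + 1) = n.choose k + n.choose (k + 1) := Nat.choose_succ_succ n k
        cases k with
        | zero =>
          have h4 := ih.1
          rw [Nat.choose_zero_right] at h1 h3 ⊢
          omega
        | succ j =>
          have h4 := ih.2 j (by omega)
          have h5 : (n + 1).choose (j + 1) = n.choose j + n.choose (j + 1) :=
            Nat.choose_succ_succ n j
          omega

/-- the part with the fewest letters `x₀` -/
theorem layer {ψ : A} (h : IsDM ψ) {N m : ℕ} (hN : LenHom ψ N)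
    (hmin : ∀ w, co ψ w ≠ 0 → m ≤ w.count 0)
    (hB : ∀ u, IsBallot u → u.length = N → u.count 0 = m → co ψ u = 0) (u : List (Fin 2))
    (hum : u.count 0 = m) : co ψ u = 0 := by
  by_contra hu
  have hsmall := taskSmall_proof taskTwoB Pool.Agent.H352.DSH.taskTwoC ψ h u hu
  have hlen := hN u hu
  have hcl := Pool.Agent.TH19.DS.count_len u
  have hB' : ∀ a : List ℕ, a ≠ [] → Bal 1 a → a.sum = m → a.length = N - m →
      co ψ (wordX a) = 0 := by
    intro a ha hb hs hl
    have e0 := wordX_count0 a
    have e1 := wordX_count a
    have e2 := Pool.Agent.TH19.DS.count_len (wordX a)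
    exact hB _ (isBallot_wordX ha hb) (by omega) (by omega)
  apply hu
  have hS : ∀ w, Pool.Agent.TH19.DS.ins 1 w (co ψ) = 0 := by
    intro w
    rw [Pool.Agent.TH19.DS.ins_eq]
    exact Pool.Agent.H352.DSH.taskTwoC ψ h.mem 1 h.c1 w
  have hT : ∀ w, Pool.Agent.TH19.DS.ins 0 w (co ψ) = 0 := by
    intro w
    rw [Pool.Agent.TH19.DS.ins_eq]
    exact Pool.Agent.H352.DSH.taskTwoC ψ h.mem 0 h.c0 w
  refine Pool.Agent.TH19.DS.all_zero (m := m) (r := N - m) hS hT (by omega) ?_ u hum (by omega)
  intro l hl hs hm1
  rcases Nat.lt_or_ge m 2 with hm | hm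
  · have hl1 : l.length = 1 := by omega
    obtain ⟨g, rfl⟩ := List.length_eq_one_iff.1 hl1
    have hg : g = (N - m) - 1 := by simp at hs; omega
    subst hg
    refine one_zero (by omega) hS (hB' _ (by simp) ?_ (by simp; omega) (by simp; omega))
    intro i hi
    rcases i with _ | _ | i
    · simp
    · simp
    · simp [List.take_replicate]
  · obtain ⟨a, ha, hW⟩ := Pool.Agent.TH19.DS.exists_wordX (Pool.Agent.TH19.DS.W_end1 l)
    rw [hW]
    have h0 := Pool.Agent.TH19.DS.W_count0 l
    have h1 := Pool.Agent.TH19.DS.W_count1 l
    rw [hW, wordX_count0] at h0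
    rw [hW, wordX_count] at h1
    refine (qsym_bal (N - m) m hm (fun l => co ψ (wordX l)) ?_).2 (fun a hl' hs' hb => hB' a
      (fun h' => by rw [h'] at hl'; simp at hl'; omega) hb hs' hl') a (by omega) (by omega)
    intro β hβ c hc hpos hsum hex
    exact harmonic h hN hmin β (by omega) c hc hpos hsum hex

/-- Let `dm_N` be the part of weight `N` of the double shuffle Lie algebra `dm`, and let `k ≥ 0`.

An element of `dm_N` with at least `k` letters `x₀` in each word, whose coefficients at the ballot
words with exactly `k` letters `x₀` vanish, has at least `k + 1` letters `x₀` in each word.  For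
`k ≥ 1` the layer, that is, the space of the elements with at least `k` modulo the space of those
with at least `k + 1` letters `x₀` in each word, has dimension at most
`C(N - 1, k) - C(N - 1, k - 1)` (read as `0` if it is negative).  If `2 k ≥ N`, then no nonzero
element of `dm_N` has at least `k` letters `x₀` in each of its words.

An element of `dm` of arbitrary weights with vanishing coefficients at all ballot words vanishes. -/
theorem result :
    (∀ N k : ℕ,
      (∀ ψ ∈ Fil N k, (∀ u, IsBallot u → u.length = N → u.count 0 = k → co ψ u = 0) →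
        ψ ∈ Fil N (k + 1)) ∧
      Module.Finite ℚ (Fil N k ⧸ (Fil N (k + 1)).submoduleOf (Fil N k)) ∧
      (1 ≤ k → Module.finrank ℚ (Fil N k ⧸ (Fil N (k + 1)).submoduleOf (Fil N k)) ≤
        (N - 1).choose k - (N - 1).choose (k - 1)) ∧
      (N ≤ 2 * k → Fil N k = ⊥)) ∧
    ∀ ψ : A, IsDM ψ → (∀ u, IsBallot u → co ψ u = 0) → ψ = 0 := by
  classical
  refine ⟨fun N k => ?_, fun ψ h hB => ?_⟩
  · have key : ∀ ψ ∈ Fil N k, (∀ u, IsBallot u → u.length = N → u.count 0 = k → co ψ u = 0) →
        ψ ∈ Fil N (k + 1) := by
      rintro ψ ⟨h1, h2⟩ h3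
      refine ⟨h1, fun u hu => ⟨(h2 u hu).1, ?_⟩⟩
      have h4 := layer h1 (N := N) (m := k) (fun v hv => (h2 v hv).1) (fun w hw => (h2 w hw).2) h3 u
      have h5 := (h2 u hu).2
      by_contra h6
      exact hu (h4 (by omega))
    have hq := quot_le (Fil N k) (Fil N (k + 1)) ((dyck (N - 1) k).image (· ++ [1]))
      (fun ψ hψ h => key ψ hψ fun u hu hl hc => by
        obtain ⟨⟨v, rfl⟩, hp⟩ := hu
        refine h _ (Finset.mem_image.2 ⟨v, ?_, rfl⟩)
        have h1 := mem_dyck v fun p hp' => hp p (hp'.trans (List.prefix_append v [1]))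
        rw [List.length_append, List.length_singleton] at hl
        have e : (v ++ [(1 : Fin 2)]).count 0 = v.count 0 := by simp
        rw [show v.length = N - 1 by omega, ← e, hc] at h1
        exact h1)
    refine ⟨key, hq.1, fun hk => hq.2.trans (Finset.card_image_le.trans ?_), fun hk => ?_⟩
    · obtain ⟨j, rfl⟩ := Nat.exists_eq_add_of_le' hk
      rcases Nat.lt_or_ge (N - 1 + 1) (2 * (j + 1)) with h | h
      · rw [dyck_empty _ _ (by omega)]
        exact Nat.zero_le _
      · have := (card_dyck (N - 1)).2 j h
        rw [Nat.add_sub_cancel]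
        omega
    · rw [Submodule.eq_bot_iff]
      rintro ψ ⟨h1, h2⟩
      exact half h1 (N := N) (fun v hv => (h2 v hv).1) fun u hu => by
        have := (h2 u hu).2
        omega
  · refine ballot h fun a ha => ?_
    rcases eq_or_ne a [] with rfl | hne
    · have h1 : co ψ [] = 0 := by
        by_contra h2
        have := taskSmall_proof taskTwoB Pool.Agent.H352.DSH.taskTwoC ψ h [] h2
        simp at this
      exact h1
    · exact hB _ (isBallot_wordX hne ha)

end Pool.Agent.Results.MP_ec2393_nt.BallotWords
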