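import Pool.Agent.N568.BK.DS3

/-! MP_ec2393_nt: elements of weights `2 p^e + 1` (`p ≥ 5` a prime, `e ≥ 0`) of the double shuffle Lie algebra,
or only of `Lie[x₀, x₁]`, which are not zero in depth one, freely generate a free Lie algebra under the Ihara
bracket.

All the exponents `e ≥ 0` may occur; for instance the weights `3, 11, 51, 251, …` (`p = 5`). In the depth graded
Lie algebra the depth one elements of all odd weights satisfy the relations given by the period polynomials, so
a condition on the weights is needed for such a statement.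

Proof. Let `L_b` be the operator `g ↦ f g + D_f g` for `f = (ad x₀)^(2b) x₁`. The coefficients of `L_b g` at the
words `x₀^(k₁) x₁ ⋯ x₀^(k_d) x₁` are combinations of the coefficients of `g` at words of the same form, and for
`b` a power of `p` only three binomial coefficients `binom(2b, k)` are not divisible by `p`. For a word
`w = (b_1, …, b_d)` in the powers of `p` let `M_w` be the monomial with the exponents
`2 b_d + b_(d-1), b_(d-1) + b_(d-2), …, b_2 + b_1, b_1`. Modulo `p` the coefficient of `L_(b'_1) ⋯ L_(b'_d) 1` at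
`M_w` is `2^(d-1)` if `b' = w` and zero otherwise. So the elements `L_(b_1) ⋯ L_(b_d) 1` are linearly
independent. -/

set_option autoImplicit false

namespace Pool.Agent.Results.MP_ec2393_nt.PrimePowerWeights

open Pool.Agent.H777R4.DM

attribute [local instance 100] LieRing.ofAssociativeRing

/-- Let `p ≥ 5` be a prime, let `e₁, …, eₙ ≥ 0` be distinct and let `ψᵢ ∈ Lie[x₀, x₁]` be homogeneous of weight
`2 p^(eᵢ) + 1`, with a nonzero coefficient at `x₀^(2 p^(eᵢ)) x₁`.  Then there is an injective linear map `φ` on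
`ℚ⟨X₁, …, Xₙ⟩` with `φ Xᵢ = ψᵢ` that carries the bracket `[P, Q] = PQ - QP` of the free Lie algebra on
`X₁, …, Xₙ` to the Ihara bracket. -/
theorem result (p : ℕ) (hp : p.Prime) (h5 : 5 ≤ p) (n : ℕ) (e : Fin n → ℕ) (he : Function.Injective e)
    (ψ : Fin n → A) (hL : ∀ i, ψ i ∈ LieX)
    (hw : ∀ i u, co (ψ i) u ≠ 0 → u.length = 2 * p ^ e i + 1)
    (h1 : ∀ i, co (ψ i) (List.replicate (2 * p ^ e i) 0 ++ [1]) ≠ 0) :
    ∃ φ : Al (Fin n) →ₗ[ℚ] A, Function.Injective φ ∧ (∀ i, φ (wd [i]) = ψ i) ∧
      ∀ P ∈ LieN n, ∀ Q ∈ LieN n, φ (P * Q - Q * P) = ihara (φ P) (φ Q) :=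
  ⟨PhiN ψ, Pool.Agent.N568.DSF.main p hp h5 n e he ψ hL hw h1,
    (Pool.Agent.H358R3.DM.taskFinalN n ψ).1, (Pool.Agent.H358R3.DM.taskFinalN n ψ).2⟩

end Pool.Agent.Results.MP_ec2393_nt.PrimePowerWeights
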